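import Pool.Agent.W533.LP.Stm2

/-!
LP-G1, general facts: resampling of one coordinate, moments of the geometric law.
-/

set_option autoImplicit false

namespace Pool.Agent.W140.LP
open MeasureTheory ProbabilityTheory Pool.Agent.W533.LP
open scoped ENNReal

section gen
variable {ι α : Type} [Fintype ι] [DecidableEq ι] [MeasurableSpace α]

omit [Fintype ι] in
theorem meas_upd (v : ι) : Measurable (fun z : (ι → α) × α => Function.update z.1 v z.2) :=
  measurable_update'

theorem map_upd (m : Measure α) [IsProbabilityMeasure m] (v : ι) :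
    Measure.map (fun z : (ι → α) × α => Function.update z.1 v z.2)
      ((Measure.pi fun _ : ι => m).prod m) = Measure.pi fun _ : ι => m := by
  symm
  apply Measure.pi_eq
  intro s hs
  rw [Measure.map_apply (meas_upd v) (MeasurableSet.univ_pi hs)]
  have hpre : (fun z : (ι → α) × α => Function.update z.1 v z.2) ⁻¹' (Set.univ.pi s) =
     (Set.univ.pi (Function.update s v Set.univ)) ×ˢ (s v) := by
    ext ⟨y, k⟩
    simp only [Set.mem_preimage, Set.mem_pi, Set.mem_univ, true_implies, Set.mem_prod]
    constructor
    · intro h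
      refine ⟨fun i => ?_, ?_⟩
      · by_cases hi : i = v
        · subst hi; simp
        · have := h i
          rw [Function.update_of_ne hi] at this ⊢
          exact this
      · have := h v
        rwa [Function.update_self] at this
    · rintro ⟨h1, h2⟩ i
      by_cases hi : i = v
      · subst hi; rw [Function.update_self]; exact h2
      · have := h1 i
        rw [Function.update_of_ne hi] at this ⊢
        exact this
  rw [hpre, Measure.prod_prod, Measure.pi_pi]
  rw [← Finset.mul_prod_erase Finset.univ _ (Finset.mem_univ v),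
    ← Finset.mul_prod_erase Finset.univ (fun i => m (s i)) (Finset.mem_univ v),
    Function.update_self, measure_univ, one_mul, mul_comm]
  congr 1
  apply Finset.prod_congr rfl
  intro i hi
  rw [Function.update_of_ne (Finset.ne_of_mem_erase hi)]

theorem resample (m : Measure α) [IsProbabilityMeasure m] (v : ι) {f : (ι → α) → ℝ}
    (hf : Integrable f (Measure.pi fun _ : ι => m)) :
    Integrable (fun z : (ι → α) × α => f (Function.update z.1 v z.2))
      ((Measure.pi fun _ : ι => m).prod m) ∧
    ∫ y, f y ∂(Measure.pi fun _ : ι => m) =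
      ∫ y, ∫ k, f (Function.update y v k) ∂m ∂(Measure.pi fun _ : ι => m) := by
  have h1 : Integrable f (Measure.map (fun z : (ι → α) × α => Function.update z.1 v z.2)
      ((Measure.pi fun _ : ι => m).prod m)) := by rwa [map_upd]
  have h2 : Integrable (fun z : (ι → α) × α => f (Function.update z.1 v z.2))
      ((Measure.pi fun _ : ι => m).prod m) :=
    (integrable_map_measure h1.aestronglyMeasurable (meas_upd v).aemeasurable).1 h1
  refine ⟨h2, ?_⟩
  rw [← integral_prod _ h2, ← integral_map (meas_upd v).aemeasurable h1.aestronglyMeasurable,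
    map_upd]

end gen

section geo
variable {q : ℝ} (h0 : 0 < q) (h1 : q < 1)
include h0 h1

omit h0 h1 in
theorem geo_lintegral (f : ℕ → ℝ≥0∞) :
    ∫⁻ k, f k ∂(geoM q) = ∑' k, ENNReal.ofReal ((1 - q) * q ^ k) * f k := by
  unfold geoM
  rw [lintegral_sum_measure]
  congr 1
  funext k
  rw [lintegral_smul_measure, lintegral_dirac, smul_eq_mul]

theorem geo_prob : IsProbabilityMeasure (geoM q) := by
  refine ⟨?_⟩
  rw [← lintegral_one, geo_lintegral]
  simp only [mul_one]
  rw [← ENNReal.ofReal_tsum_of_nonneg, tsum_mul_left, tsum_geometric_of_lt_one h0.le h1,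
    mul_inv_cancel₀ (by linarith), ENNReal.ofReal_one]
  · intro k; exact mul_nonneg (by linarith) (pow_nonneg h0.le k)
  · exact (summable_geometric_of_lt_one h0.le h1).mul_left _

theorem geo_zero : (geoM q).real {0} = 1 - q := by
  have : geoM q {0} = ENNReal.ofReal (1 - q) := by
    rw [← lintegral_indicator_one (MeasurableSet.of_discrete), geo_lintegral,
      tsum_eq_single 0]
    · simp
    · intro k hk
      simp [hk]
  rw [Measure.real, this, ENNReal.toReal_ofReal (by linarith)]

theorem geo_int (r : ℕ) : Integrable (fun k : ℕ => (k : ℝ) ^ r) (geoM q) := by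
  refine ⟨AEStronglyMeasurable.of_discrete, ?_⟩
  unfold HasFiniteIntegral
  rw [geo_lintegral]
  have h2 : ∀ k : ℕ, ENNReal.ofReal ((1 - q) * q ^ k) * ‖(k : ℝ) ^ r‖ₑ =
      ENNReal.ofReal ((1 - q) * ((k : ℝ) ^ r * q ^ k)) := by
    intro k
    rw [Real.enorm_of_nonneg (by positivity), ← ENNReal.ofReal_mul
      (mul_nonneg (by linarith) (pow_nonneg h0.le k))]
    congr 1
    ring
  simp_rw [h2]
  have h4 : ‖q‖ < 1 := by rw [Real.norm_of_nonneg h0.le]; exact h1
  have h5 : Summable (fun k : ℕ => (k : ℝ) ^ r * q ^ k) :=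
    summable_pow_mul_geometric_of_norm_lt_one r h4
  have h3 : Summable (fun k : ℕ => (1 - q) * ((k : ℝ) ^ r * q ^ k)) := h5.mul_left (1 - q)
  rw [← ENNReal.ofReal_tsum_of_nonneg (fun k => mul_nonneg (by linarith) (by positivity)) h3]
  exact ENNReal.ofReal_lt_top

end geo

/-- law of the second component -/
noncomputable def nu (q : ℝ) (s : ℕ) : Measure ℕ := if s = 0 then geoM q else Measure.dirac 0

noncomputable def Bm (ρ : ℝ) : Measure Bool :=
  ENNReal.ofReal ρ • Measure.dirac true + ENNReal.ofReal (1 - ρ) • Measure.dirac false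

theorem hM_eq (q ρ : ℝ) (s : ℕ) : hM q ρ s = (Bm ρ).prod (nu q s) := rfl

section par
variable {q ρ : ℝ} {s : ℕ} (hp : Par q ρ s)
include hp

theorem nu_prob : IsProbabilityMeasure (nu q s) := by
  unfold nu
  split_ifs
  · exact geo_prob hp.1 hp.2.1
  · infer_instance

theorem nu_int (r : ℕ) : Integrable (fun k : ℕ => (k : ℝ) ^ r) (nu q s) := by
  unfold nu
  split_ifs
  · exact geo_int hp.1 hp.2.1 r
  · exact integrable_dirac (by simp)

theorem Bm_prob : IsProbabilityMeasure (Bm ρ) := by
  refine ⟨?_⟩
  unfold Bm
  rw [Measure.add_apply, Measure.smul_apply, Measure.smul_apply, measure_univ, measure_univ,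
    smul_eq_mul, smul_eq_mul, mul_one, mul_one,
    ← ENNReal.ofReal_add hp.2.2.1.le (by linarith [hp.2.2.2.1])]
  simp

theorem Bm_integral (f : Bool → ℝ) : ∫ b, f b ∂(Bm ρ) = ρ * f true + (1 - ρ) * f false := by
  unfold Bm
  have i1 : Integrable f (ENNReal.ofReal ρ • Measure.dirac true) := by
    have : IsFiniteMeasure (ENNReal.ofReal ρ • (Measure.dirac true : Measure Bool)) :=
      Measure.smul_finite _ ENNReal.ofReal_ne_top
    exact Integrable.of_finite
  have i2 : Integrable f (ENNReal.ofReal (1 - ρ) • Measure.dirac false) := by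
    have : IsFiniteMeasure (ENNReal.ofReal (1 - ρ) • (Measure.dirac false : Measure Bool)) :=
      Measure.smul_finite _ ENNReal.ofReal_ne_top
    exact Integrable.of_finite
  rw [integral_add_measure i1 i2, integral_smul_measure, integral_smul_measure, integral_dirac,
    integral_dirac, ENNReal.toReal_ofReal hp.2.2.1.le,
    ENNReal.toReal_ofReal (by linarith [hp.2.2.2.1])]
  rfl

theorem hM_prob : IsProbabilityMeasure (hM q ρ s) := by
  rw [hM_eq]
  have := nu_prob hp
  have := Bm_prob hp
  infer_instance

theorem hM_integral {g : Bool × ℕ → ℝ} (hg : Integrable g (hM q ρ s)) :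
    ∫ c, g c ∂(hM q ρ s) = ρ * ∫ x, g (true, x) ∂(nu q s) + (1 - ρ) * ∫ x, g (false, x) ∂(nu q s) := by
  rw [hM_eq] at hg ⊢
  have := nu_prob hp
  have := Bm_prob hp
  rw [integral_prod _ hg, Bm_integral hp]

end par

end Pool.Agent.W140.LP
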