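import Pool.Agent.W140.LP.GenA

/-!
LP-G1: the projection on one hidden variable.
-/

set_option autoImplicit false

namespace Pool.Agent.W140.LP
open MeasureTheory ProbabilityTheory Pool.Agent.W533.LP
open scoped ENNReal

noncomputable def Fs {n : ℕ} (W : V n → ℕ) (v : V n) (m : ℕ) : ℝ := ∑ l ∈ Finset.range m, sl W v l

noncomputable def Phi (q ρ : ℝ) (s : ℕ) {n : ℕ} (y : V n → ℕ) (v : V n) (m : ℕ) : ℝ :=
  ∑ l ∈ Finset.range m, pp q ρ s y v l

noncomputable def psi (q ρ : ℝ) (s : ℕ) {n : ℕ} (y : V n → ℕ) (v : V n) : ℝ :=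
  Phi q ρ s y v (y v + s) - ∫ x, Phi q ρ s y v x ∂(nu q s)

noncomputable def kp (b : Bool) : ℝ := if b then 1 else 0

theorem ph_eq (q ρ : ℝ) (s : ℕ) {n : ℕ} (y : V n → ℕ) (v : V n) :
    ph q ρ s y v = Phi q ρ s y v (y v + s) := rfl

section det
variable {n : ℕ} {s : ℕ}

theorem sl_upd (W : V n → ℕ) (v : V n) (k l : ℕ) : sl (Function.update W v k) v l = sl W v l := by
  unfold sl
  rw [Function.update_idem, Function.update_idem]

theorem Tc_upd (W : V n → ℕ) (v : V n) (m : ℕ) :
    (Tc (Function.update W v m) : ℝ) = Tc (Function.update W v 0) + Fs W v m := by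
  unfold Fs sl
  rw [Finset.sum_range_sub (fun l => (Tc (Function.update W v l) : ℝ))]
  ring

theorem Wt_upd (y : V n → ℕ) (h : V n → Bool × ℕ) (v : V n) (c : Bool × ℕ) :
    Wt s y (Function.update h v c) =
      Function.update (Wt s y h) v (if c.1 then y v + s else c.2) := by
  funext i
  by_cases hi : i = v
  · subst hi
    simp only [Wt, Function.update_self]
  · simp only [Wt, Function.update_of_ne hi]

theorem Wt_upd' (y : V n → ℕ) (k : ℕ) (h : V n → Bool × ℕ) (v : V n) :
    ∃ k', Wt s (Function.update y v k) h = Function.update (Wt s y h) v k' := by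
  refine ⟨Wt s (Function.update y v k) h v, ?_⟩
  funext i
  by_cases hi : i = v
  · subst hi
    rw [Function.update_self]
  · rw [Function.update_of_ne hi]
    simp only [Wt, Function.update_of_ne hi]

variable (hS : DSl)
include hS

theorem sl_nonneg (W : V n → ℕ) (v : V n) (l : ℕ) : 0 ≤ sl W v l := by
  rcases (hS n W v l).1 with h | h <;> rw [h]
  norm_num

theorem sl_le_one (W : V n → ℕ) (v : V n) (l : ℕ) : sl W v l ≤ 1 := by
  rcases (hS n W v l).1 with h | h <;> rw [h]
  norm_num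

theorem Fs_nonneg (W : V n → ℕ) (v : V n) (m : ℕ) : 0 ≤ Fs W v m :=
  Finset.sum_nonneg fun l _ => sl_nonneg hS W v l

theorem Fs_le (W : V n → ℕ) (v : V n) (m : ℕ) : Fs W v m ≤ m := by
  unfold Fs
  calc ∑ l ∈ Finset.range m, sl W v l ≤ ∑ l ∈ Finset.range m, (1 : ℝ) :=
        Finset.sum_le_sum fun l _ => sl_le_one hS W v l
    _ = m := by simp

end det

theorem kp_bd {ρ : ℝ} (h0 : 0 < ρ) (h1 : ρ < 1) (b : Bool) : |kp b - ρ| ≤ 1 := by
  unfold kp
  cases b
  · simp only [Bool.false_eq_true, if_false]; rw [abs_le]; constructor <;> linarith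
  · simp only [if_true]; rw [abs_le]; constructor <;> linarith

section prob
variable {q ρ : ℝ} {s : ℕ} (hp : Par q ρ s) {n : ℕ}
include hp

theorem muH_prob : IsProbabilityMeasure (muH q ρ s n) := by
  have := hM_prob hp
  unfold muH
  infer_instance

theorem muY_prob : IsProbabilityMeasure (muY q n) := by
  have := geo_prob hp.1 hp.2.1
  unfold muY
  infer_instance

variable (hS : DSl)
include hS

theorem sl_int (y : V n → ℕ) (v : V n) (l : ℕ) :
    Integrable (fun h => sl (Wt s y h) v l) (muH q ρ s n) := by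
  have := muH_prob hp (n := n)
  refine Integrable.mono' (integrable_const (1 : ℝ)) AEStronglyMeasurable.of_discrete
    (ae_of_all _ fun h => ?_)
  rw [Real.norm_eq_abs, abs_of_nonneg (sl_nonneg hS _ _ _)]
  exact sl_le_one hS _ _ _

theorem Phi_eq (y : V n → ℕ) (v : V n) (m : ℕ) :
    Phi q ρ s y v m = ∫ h, Fs (Wt s y h) v m ∂(muH q ρ s n) := by
  unfold Phi Fs pp
  rw [integral_finsetSum _ fun l _ => sl_int hp hS y v l]

theorem Phi_nonneg (y : V n → ℕ) (v : V n) (m : ℕ) : 0 ≤ Phi q ρ s y v m := by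
  rw [Phi_eq hp hS]
  exact integral_nonneg fun h => Fs_nonneg hS _ _ _

theorem Phi_le (y : V n → ℕ) (v : V n) (m : ℕ) : Phi q ρ s y v m ≤ m := by
  have := muH_prob hp (n := n)
  rw [Phi_eq hp hS]
  have h1 : ∫ h, Fs (Wt s y h) v m ∂(muH q ρ s n) ≤ ∫ _h, (m : ℝ) ∂(muH q ρ s n) := by
    apply integral_mono_of_nonneg (ae_of_all _ fun h => Fs_nonneg hS _ _ _) (integrable_const _)
    exact ae_of_all _ fun h => Fs_le hS _ _ _
  simpa using h1

theorem Phi_upd (y : V n → ℕ) (v : V n) (k m : ℕ) :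
    Phi q ρ s (Function.update y v k) v m = Phi q ρ s y v m := by
  rw [Phi_eq hp hS, Phi_eq hp hS]
  congr 1
  funext h
  obtain ⟨k', hk'⟩ := Wt_upd' (s := s) y k h v
  rw [hk']
  unfold Fs
  apply Finset.sum_congr rfl
  intro l _
  rw [sl_upd]

/-- projection on one hidden variable -/
theorem proj (y : V n → ℕ) (v : V n)
    (hInt : Integrable (fun h => (Tc (Wt s y h) : ℝ)) (muH q ρ s n)) :
    ∫ h, (Tc (Wt s y h) : ℝ) * (kp (h v).1 - ρ) ∂(muH q ρ s n) = ρ * (1 - ρ) * psi q ρ s y v := by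
  have i1 := muH_prob hp (n := n)
  have i2 := hM_prob hp
  have i3 := nu_prob hp
  have i4 := Bm_prob hp
  have hρ0 := hp.2.2.1
  have hρ1 := hp.2.2.2.1
  have hi : Integrable (fun h => (Tc (Wt s y h) : ℝ) * (kp (h v).1 - ρ)) (muH q ρ s n) := by
    refine Integrable.mono' hInt.norm AEStronglyMeasurable.of_discrete (ae_of_all _ fun h => ?_)
    rw [norm_mul]
    calc ‖(Tc (Wt s y h) : ℝ)‖ * ‖kp (h v).1 - ρ‖ ≤ ‖(Tc (Wt s y h) : ℝ)‖ * 1 :=
          mul_le_mul_of_nonneg_left (by rw [Real.norm_eq_abs]; exact kp_bd hρ0 hρ1 _) (norm_nonneg _)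
      _ = ‖(Tc (Wt s y h) : ℝ)‖ := mul_one _
  have hre := (resample (hM q ρ s) v hi).2
  have hre' : ∫ h, (Tc (Wt s y h) : ℝ) * (kp (h v).1 - ρ) ∂(muH q ρ s n) =
      ∫ h, ∫ c, (Tc (Wt s y (Function.update h v c)) : ℝ) *
        (kp (Function.update h v c v).1 - ρ) ∂(hM q ρ s) ∂(muH q ρ s n) := hre
  rw [hre']
  have hx1 : Integrable (fun x : ℕ => (x : ℝ)) (nu q s) := by
    simpa using nu_int hp 1
  have hFs : ∀ h : V n → Bool × ℕ, Integrable (fun x => Fs (Wt s y h) v x) (nu q s) := by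
    intro h
    refine Integrable.mono' hx1 AEStronglyMeasurable.of_discrete (ae_of_all _ fun x => ?_)
    rw [Real.norm_eq_abs, abs_of_nonneg (Fs_nonneg hS _ _ _)]
    exact Fs_le hS _ _ _
  have hinner : ∀ h : V n → Bool × ℕ, ∫ c, (Tc (Wt s y (Function.update h v c)) : ℝ) *
        (kp (Function.update h v c v).1 - ρ) ∂(hM q ρ s) =
      ρ * (1 - ρ) * (Fs (Wt s y h) v (y v + s) - ∫ x, Fs (Wt s y h) v x ∂(nu q s)) := by
    intro h
    set B : ℝ := ((Tc (Function.update (Wt s y h) v 0) : ℕ) : ℝ) with hB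
    have e1 : ∀ c : Bool × ℕ, (Tc (Wt s y (Function.update h v c)) : ℝ) *
        (kp (Function.update h v c v).1 - ρ) =
        (B + Fs (Wt s y h) v (if c.1 then y v + s else c.2)) * (kp c.1 - ρ) := by
      intro c
      rw [Wt_upd, Tc_upd, Function.update_self]
    simp_rw [e1]
    have hint : Integrable (fun c : Bool × ℕ =>
        (B + Fs (Wt s y h) v (if c.1 then y v + s else c.2)) * (kp c.1 - ρ)) (hM q ρ s) := by
      have hdom : Integrable (fun c : Bool × ℕ => (B + (y v + s : ℕ)) + (c.2 : ℝ)) (hM q ρ s) := by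
        rw [hM_eq]
        exact (integrable_const _).add (hx1.comp_snd (Bm ρ))
      refine Integrable.mono' hdom AEStronglyMeasurable.of_discrete (ae_of_all _ fun c => ?_)
      rw [norm_mul]
      have hB0 : 0 ≤ B := Nat.cast_nonneg _
      have hF0 := Fs_nonneg hS (Wt s y h) v (if c.1 then y v + s else c.2)
      have hF1 := Fs_le hS (Wt s y h) v (if c.1 then y v + s else c.2)
      have hF2 : (((if c.1 then y v + s else c.2 : ℕ)) : ℝ) ≤ (y v + s : ℕ) + (c.2 : ℝ) := by
        split_ifs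
        · linarith [(Nat.cast_nonneg c.2 : (0 : ℝ) ≤ c.2)]
        · linarith [(Nat.cast_nonneg (y v + s) : (0 : ℝ) ≤ ((y v + s : ℕ) : ℝ))]
      calc ‖B + Fs (Wt s y h) v (if c.1 then y v + s else c.2)‖ * ‖kp c.1 - ρ‖
          ≤ ‖B + Fs (Wt s y h) v (if c.1 then y v + s else c.2)‖ * 1 :=
            mul_le_mul_of_nonneg_left (by rw [Real.norm_eq_abs]; exact kp_bd hρ0 hρ1 _)
              (norm_nonneg _)
        _ = B + Fs (Wt s y h) v (if c.1 then y v + s else c.2) := by
            rw [mul_one, Real.norm_of_nonneg (by linarith)]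
        _ ≤ _ := by linarith
    rw [hM_integral hp hint]
    simp only [kp, if_true, Bool.false_eq_true, if_false]
    rw [integral_mul_const, integral_mul_const, integral_const, integral_add (integrable_const _)
      (hFs h), integral_const]
    simp only [probReal_univ, one_smul]
    ring
  simp_rw [hinner]
  rw [integral_const_mul]
  congr 1
  have hprod : Integrable (fun z : (V n → Bool × ℕ) × ℕ => Fs (Wt s y z.1) v z.2)
      ((muH q ρ s n).prod (nu q s)) := by
    refine Integrable.mono' (hx1.comp_snd (muH q ρ s n)) AEStronglyMeasurable.of_discrete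
      (ae_of_all _ fun z => ?_)
    rw [Real.norm_eq_abs, abs_of_nonneg (Fs_nonneg hS _ _ _)]
    exact Fs_le hS _ _ _
  have ha : Integrable (fun h => Fs (Wt s y h) v (y v + s)) (muH q ρ s n) := by
    refine Integrable.mono' (integrable_const ((y v + s : ℕ) : ℝ)) AEStronglyMeasurable.of_discrete
      (ae_of_all _ fun h => ?_)
    rw [Real.norm_eq_abs, abs_of_nonneg (Fs_nonneg hS _ _ _)]
    exact Fs_le hS _ _ _
  rw [integral_sub ha hprod.integral_prod_left]
  unfold psi
  rw [← Phi_eq hp hS]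
  congr 1
  rw [← integral_prod _ hprod, integral_prod_symm _ hprod]
  congr 1
  funext x
  rw [Phi_eq hp hS]

end prob

end Pool.Agent.W140.LP
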