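import Pool.Agent.W140.LP.GenB

/-!
LP-G1: Bessel inequality for the hidden bits, integration, conclusion.
-/

set_option autoImplicit false

namespace Pool.Agent.W140.LP
open MeasureTheory ProbabilityTheory Pool.Agent.W533.LP
open scoped ENNReal

section bessel
variable {q ρ : ℝ} {s : ℕ} (hp : Par q ρ s) {n : ℕ}
include hp

theorem kp_int (v : V n) : Integrable (fun h : V n → Bool × ℕ => kp (h v).1 - ρ) (muH q ρ s n) := by
  have := muH_prob hp (n := n)
  refine Integrable.mono' (integrable_const (1 : ℝ)) AEStronglyMeasurable.of_discrete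
    (ae_of_all _ fun h => ?_)
  rw [Real.norm_eq_abs]
  exact kp_bd hp.2.2.1 hp.2.2.2.1 _

theorem kk_int (v w : V n) : Integrable (fun h : V n → Bool × ℕ =>
    (kp (h v).1 - ρ) * (kp (h w).1 - ρ)) (muH q ρ s n) := by
  have := muH_prob hp (n := n)
  refine Integrable.mono' (integrable_const (1 : ℝ)) AEStronglyMeasurable.of_discrete
    (ae_of_all _ fun h => ?_)
  rw [norm_mul, Real.norm_eq_abs, Real.norm_eq_abs]
  calc |kp (h v).1 - ρ| * |kp (h w).1 - ρ| ≤ 1 * 1 :=
        mul_le_mul (kp_bd hp.2.2.1 hp.2.2.2.1 _) (kp_bd hp.2.2.1 hp.2.2.2.1 _) (abs_nonneg _)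
          zero_le_one
    _ = 1 := one_mul 1

theorem hM_bd_int {g : Bool × ℕ → ℝ} {C : ℝ} (hg : ∀ c, |g c| ≤ C) : Integrable g (hM q ρ s) := by
  have := hM_prob hp
  refine Integrable.mono' (integrable_const C) AEStronglyMeasurable.of_discrete
    (ae_of_all _ fun h => ?_)
  rw [Real.norm_eq_abs]
  exact hg h

theorem kp_mean : ∫ c : Bool × ℕ, (kp c.1 - ρ) ∂(hM q ρ s) = 0 := by
  have := nu_prob hp
  rw [hM_integral hp (hM_bd_int hp (C := 1) fun c => kp_bd hp.2.2.1 hp.2.2.2.1 _)]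
  simp only [kp, if_true, Bool.false_eq_true, if_false, integral_const, probReal_univ, one_smul]
  ring

theorem kp_sq : ∫ c : Bool × ℕ, (kp c.1 - ρ) * (kp c.1 - ρ) ∂(hM q ρ s) = ρ * (1 - ρ) := by
  have := nu_prob hp
  rw [hM_integral hp (hM_bd_int hp (C := 1) fun c => ?_)]
  · simp only [kp, if_true, Bool.false_eq_true, if_false, integral_const, probReal_univ, one_smul]
    ring
  · rw [abs_mul]
    calc |kp c.1 - ρ| * |kp c.1 - ρ| ≤ 1 * 1 :=
        mul_le_mul (kp_bd hp.2.2.1 hp.2.2.2.1 _) (kp_bd hp.2.2.1 hp.2.2.2.1 _) (abs_nonneg _)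
          zero_le_one
      _ = 1 := one_mul 1

theorem kp_mean' (v : V n) : ∫ h : V n → Bool × ℕ, (kp (h v).1 - ρ) ∂(muH q ρ s n) = 0 := by
  have i2 := hM_prob hp
  have i1 := muH_prob hp (n := n)
  have h1 := (resample (hM q ρ s) v (kp_int hp v)).2
  have h2 : ∫ h : V n → Bool × ℕ, (kp (h v).1 - ρ) ∂(muH q ρ s n) =
    ∫ h : V n → Bool × ℕ, ∫ c, (kp (Function.update h v c v).1 - ρ) ∂(hM q ρ s) ∂(muH q ρ s n) := h1
  rw [h2]
  simp only [Function.update_self]
  rw [kp_mean hp, integral_zero]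

theorem kk_mean (v w : V n) : ∫ h : V n → Bool × ℕ, (kp (h v).1 - ρ) * (kp (h w).1 - ρ)
    ∂(muH q ρ s n) = if v = w then ρ * (1 - ρ) else 0 := by
  have i2 := hM_prob hp
  have i1 := muH_prob hp (n := n)
  have h1 := (resample (hM q ρ s) v (kk_int hp v w)).2
  have h2 : ∫ h : V n → Bool × ℕ, (kp (h v).1 - ρ) * (kp (h w).1 - ρ) ∂(muH q ρ s n) =
    ∫ h : V n → Bool × ℕ, ∫ c, (kp (Function.update h v c v).1 - ρ) *
      (kp (Function.update h v c w).1 - ρ) ∂(hM q ρ s) ∂(muH q ρ s n) := h1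
  rw [h2]
  split_ifs with hvw
  · subst hvw
    simp only [Function.update_self]
    rw [kp_sq hp, integral_const]
    simp
  · simp only [Function.update_self, Function.update_of_ne (Ne.symm hvw)]
    simp_rw [integral_mul_const]
    rw [kp_mean hp]
    simp

variable (hS : DSl)
include hS

theorem bessel (y : V n → ℕ)
    (hInt2 : Integrable (fun h => (Tc (Wt s y h) : ℝ) ^ 2) (muH q ρ s n)) :
    ρ * (1 - ρ) * ∑ v, (psi q ρ s y v) ^ 2 ≤
      ∫ h, (Tc (Wt s y h) : ℝ) ^ 2 ∂(muH q ρ s n) - (gg q ρ s y) ^ 2 := by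
  have i1 := muH_prob hp (n := n)
  have hInt : Integrable (fun h => (Tc (Wt s y h) : ℝ)) (muH q ρ s n) := by
    refine Integrable.mono' (hInt2.add (integrable_const (1 : ℝ)))
      AEStronglyMeasurable.of_discrete (ae_of_all _ fun h => ?_)
    rw [Real.norm_of_nonneg (Nat.cast_nonneg _)]
    have : 0 ≤ ((Tc (Wt s y h) : ℝ) - 1) ^ 2 := sq_nonneg _
    have h0 : (0 : ℝ) ≤ (Tc (Wt s y h) : ℝ) := Nat.cast_nonneg _
    simp only [Pi.add_apply]
    nlinarith
  set X : (V n → Bool × ℕ) → ℝ := fun h => (Tc (Wt s y h) : ℝ) with hX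
  set g : ℝ := gg q ρ s y with hg
  have hgX : g = ∫ h, X h ∂(muH q ρ s n) := rfl
  set U : (V n → Bool × ℕ) → ℝ := fun h => ∑ v, psi q ρ s y v * (kp (h v).1 - ρ) with hU
  have hUi : Integrable U (muH q ρ s n) :=
    integrable_finsetSum _ fun v _ => (kp_int hp v).const_mul _
  have hU0 : ∫ h, U h ∂(muH q ρ s n) = 0 := by
    rw [hU, integral_finsetSum _ fun v _ => (kp_int hp v).const_mul _]
    apply Finset.sum_eq_zero
    intro v _
    rw [integral_const_mul, kp_mean' hp, mul_zero]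
  have hXk : ∀ v, Integrable (fun h => X h * (kp (h v).1 - ρ)) (muH q ρ s n) := by
    intro v
    refine Integrable.mono' hInt.norm AEStronglyMeasurable.of_discrete (ae_of_all _ fun h => ?_)
    rw [norm_mul]
    calc ‖X h‖ * ‖kp (h v).1 - ρ‖ ≤ ‖X h‖ * 1 :=
          mul_le_mul_of_nonneg_left (by rw [Real.norm_eq_abs]; exact kp_bd hp.2.2.1 hp.2.2.2.1 _)
            (norm_nonneg _)
      _ = ‖X h‖ := mul_one _
  have hXUe : (fun h => X h * U h) = fun h => ∑ v, psi q ρ s y v * (X h * (kp (h v).1 - ρ)) := by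
    funext h
    rw [hU]
    simp only
    rw [Finset.mul_sum]
    apply Finset.sum_congr rfl
    intro v _
    ring
  have hXUi : Integrable (fun h => X h * U h) (muH q ρ s n) := by
    rw [hXUe]
    exact integrable_finsetSum _ fun v _ => (hXk v).const_mul _
  have hXU : ∫ h, X h * U h ∂(muH q ρ s n) = ρ * (1 - ρ) * ∑ v, (psi q ρ s y v) ^ 2 := by
    rw [hXUe, integral_finsetSum _ fun v _ => (hXk v).const_mul _, Finset.mul_sum]
    apply Finset.sum_congr rfl
    intro v _
    rw [integral_const_mul, proj hp hS y v hInt]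
    ring
  have hUUe : (fun h => U h * U h) = fun h => ∑ v, ∑ w, (psi q ρ s y v * psi q ρ s y w) *
      ((kp (h v).1 - ρ) * (kp (h w).1 - ρ)) := by
    funext h
    rw [hU]
    simp only
    rw [Finset.sum_mul_sum]
    apply Finset.sum_congr rfl
    intro v _
    apply Finset.sum_congr rfl
    intro w _
    ring
  have hUUi : Integrable (fun h => U h * U h) (muH q ρ s n) := by
    rw [hUUe]
    exact integrable_finsetSum _ fun v _ => integrable_finsetSum _ fun w _ =>
      (kk_int hp v w).const_mul _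
  have hUU : ∫ h, U h * U h ∂(muH q ρ s n) = ρ * (1 - ρ) * ∑ v, (psi q ρ s y v) ^ 2 := by
    rw [hUUe, integral_finsetSum _ fun v _ => integrable_finsetSum _ fun w _ =>
      (kk_int hp v w).const_mul _, Finset.mul_sum]
    apply Finset.sum_congr rfl
    intro v _
    rw [integral_finsetSum _ fun w _ => (kk_int hp v w).const_mul _]
    rw [Finset.sum_eq_single v]
    · rw [integral_const_mul, kk_mean hp, if_pos rfl]
      ring
    · intro w _ hw
      rw [integral_const_mul, kk_mean hp, if_neg (Ne.symm hw), mul_zero]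
    · intro h; exact absurd (Finset.mem_univ v) h
  have hpos : 0 ≤ ∫ h, (X h - g - U h) ^ 2 ∂(muH q ρ s n) := integral_nonneg fun h => sq_nonneg _
  have hexp : (fun h => (X h - g - U h) ^ 2) = fun h =>
      (X h ^ 2 + (-(2 * g)) * X h + g ^ 2) + ((-2) * (X h * U h) + (2 * g) * U h + U h * U h) := by
    funext h
    ring
  rw [hexp, integral_add, integral_add, integral_add, integral_add, integral_add,
    integral_const_mul, integral_const_mul, integral_const_mul, hXU, hU0, hUU, integral_const,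
    ← hgX] at hpos
  · simp only [probReal_univ, one_smul] at hpos
    linarith
  · exact hXUi.const_mul _
  · exact hUi.const_mul _
  · exact (hXUi.const_mul _).add (hUi.const_mul _)
  · exact hUUi
  · exact hInt2
  · exact hInt.const_mul _
  · exact hInt2.add (hInt.const_mul _)
  · exact integrable_const _
  · exact (hInt2.add (hInt.const_mul _)).add (integrable_const _)
  · exact ((hXUi.const_mul _).add (hUi.const_mul _)).add hUUi

end bessel

/-- one dimensional lemma -/
theorem one_dim {q : ℝ} (h0 : 0 < q) (h1 : q < 1) {f : ℕ → ℝ} (hf0 : f 0 = 0)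
    (hf : Integrable f (geoM q)) (hf2 : Integrable (fun k => f k ^ 2) (geoM q)) :
    (1 - q) * ∫ k, f k ^ 2 ∂(geoM q) ≤ ∫ k, (f k - ∫ x, f x ∂(geoM q)) ^ 2 ∂(geoM q) := by
  have i1 := geo_prob h0 h1
  set m : ℝ := ∫ x, f x ∂(geoM q) with hm
  set I : ℝ := ∫ k, f k ^ 2 ∂(geoM q) with hI
  have hz := geo_zero h0 h1
  set e : ℕ → ℝ := Set.indicator {0} (fun _ => (1 : ℝ)) with he
  have hei : Integrable e (geoM q) := (integrable_const (1 : ℝ)).indicator MeasurableSet.of_discrete
  have hee : ∫ k, e k ∂(geoM q) = 1 - q := by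
    rw [he, integral_indicator MeasurableSet.of_discrete, setIntegral_const, hz]
    simp
  have hfe : ∀ k, f k * e k = 0 := by
    intro k
    by_cases hk : k = 0
    · subst hk; rw [hf0, zero_mul]
    · rw [he, Set.indicator_of_notMem (by simpa using hk), mul_zero]
  have hee2 : ∀ k, e k * e k = e k := by
    intro k
    by_cases hk : k = 0
    · subst hk; rw [he, Set.indicator_of_mem (by simp)]; norm_num
    · rw [he, Set.indicator_of_notMem (by simpa using hk), mul_zero]
  have hpos : 0 ≤ ∫ k, (f k - m / q * (1 - e k)) ^ 2 ∂(geoM q) :=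
    integral_nonneg fun h => sq_nonneg _
  have hexp : (fun k => (f k - m / q * (1 - e k)) ^ 2) = fun k =>
      f k ^ 2 + (-(2 * (m / q))) * f k + ((m / q) ^ 2 + (-(m / q) ^ 2) * e k) := by
    funext k
    have a1 := hfe k
    have a2 := hee2 k
    linear_combination (2 * (m / q)) * a1 + (m / q) ^ 2 * a2
  rw [hexp, integral_add, integral_add, integral_add, integral_const_mul, integral_const_mul,
    hee, integral_const, ← hm, ← hI] at hpos
  · simp only [probReal_univ, one_smul] at hpos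
    have hkey : m ^ 2 ≤ q * I := by
      have e1 : I + -(2 * (m / q)) * m + ((m / q) ^ 2 + -(m / q) ^ 2 * (1 - q)) = I - m ^ 2 / q := by
        field_simp
        ring
      rw [e1] at hpos
      have := (div_le_iff₀ h0).1 (sub_nonneg.1 hpos)
      linarith
    have hvar : ∫ k, (f k - m) ^ 2 ∂(geoM q) = I - m ^ 2 := by
      have e2 : (fun k => (f k - m) ^ 2) = fun k => f k ^ 2 + (-(2 * m)) * f k + m ^ 2 := by
        funext k; ring
      rw [e2, integral_add, integral_add, integral_const_mul, integral_const, ← hm, ← hI]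
      · simp only [probReal_univ, one_smul]; ring
      · exact hf2
      · exact hf.const_mul _
      · exact hf2.add (hf.const_mul _)
      · exact integrable_const _
    rw [hvar]
    linarith
  · exact integrable_const _
  · exact hei.const_mul _
  · exact hf2
  · exact hf.const_mul _
  · exact hf2.add (hf.const_mul _)
  · exact (integrable_const _).add (hei.const_mul _)

section energy
variable {q ρ : ℝ} {s : ℕ} (hp : Par q ρ s) {n : ℕ}
include hp

theorem y_int (v : V n) (r : ℕ) : Integrable (fun y : V n → ℕ => ((y v : ℕ) : ℝ) ^ r) (muY q n) := by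
  have i1 := geo_prob hp.1 hp.2.1
  have h := geo_int hp.1 hp.2.1 r
  have hmp := measurePreserving_eval (fun _ : V n => geoM q) v
  exact (hmp.integrable_comp AEStronglyMeasurable.of_discrete).2 h

theorem y_lin_sq_int (v : V n) (c : ℝ) :
    Integrable (fun y : V n → ℕ => (((y v : ℕ) : ℝ) + c) ^ 2) (muY q n) := by
  have i1 := muY_prob hp (n := n)
  have h1 := y_int hp v 1
  have h2 := y_int hp v 2
  have : (fun y : V n → ℕ => (((y v : ℕ) : ℝ) + c) ^ 2) = fun y : V n → ℕ =>
      ((y v : ℕ) : ℝ) ^ 2 + (2 * c) * ((y v : ℕ) : ℝ) ^ 1 + c ^ 2 := by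
    funext y; ring
  rw [this]
  exact (h2.add (h1.const_mul _)).add (integrable_const _)

variable (hS : DSl)
include hS

theorem ph_bd (y : V n → ℕ) (v : V n) :
    0 ≤ ph q ρ s y v ∧ ph q ρ s y v ≤ (y v : ℝ) + s := by
  rw [ph_eq]
  refine ⟨Phi_nonneg hp hS _ _ _, ?_⟩
  have := Phi_le hp hS y v (y v + s)
  push_cast at this
  exact this

theorem ph_int (v : V n) : Integrable (fun y : V n → ℕ => (ph q ρ s y v) ^ 2) (muY q n) := by
  refine Integrable.mono' (y_lin_sq_int hp v (s : ℝ)) AEStronglyMeasurable.of_discrete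
    (ae_of_all _ fun y => ?_)
  rw [Real.norm_of_nonneg (sq_nonneg _)]
  exact pow_le_pow_left₀ (ph_bd hp hS y v).1 (ph_bd hp hS y v).2 2

theorem Phi_int (y : V n → ℕ) (v : V n) : Integrable (fun x => Phi q ρ s y v x) (nu q s) := by
  have hx1 : Integrable (fun x : ℕ => (x : ℝ)) (nu q s) := by
    simpa using nu_int hp 1
  refine Integrable.mono' hx1 AEStronglyMeasurable.of_discrete (ae_of_all _ fun x => ?_)
  rw [Real.norm_of_nonneg (Phi_nonneg hp hS _ _ _)]
  exact Phi_le hp hS _ _ _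

theorem psi_int (v : V n) : Integrable (fun y : V n → ℕ => (psi q ρ s y v) ^ 2) (muY q n) := by
  have hx1 : Integrable (fun x : ℕ => (x : ℝ)) (nu q s) := by
    simpa using nu_int hp 1
  refine Integrable.mono' (y_lin_sq_int hp v ((s : ℝ) + ∫ x : ℕ, (x : ℝ) ∂(nu q s)))
    AEStronglyMeasurable.of_discrete (ae_of_all _ fun y => ?_)
  rw [Real.norm_of_nonneg (sq_nonneg _)]
  have h1 := ph_bd hp hS y v
  rw [ph_eq] at h1
  have h2 : 0 ≤ ∫ x, Phi q ρ s y v x ∂(nu q s) := integral_nonneg fun x => Phi_nonneg hp hS _ _ _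
  have h3 : ∫ x, Phi q ρ s y v x ∂(nu q s) ≤ ∫ x : ℕ, (x : ℝ) ∂(nu q s) :=
    integral_mono (Phi_int hp hS y v) hx1 fun x => Phi_le hp hS _ _ _
  apply sq_le_sq'
  · unfold psi
    have : (0 : ℝ) ≤ (y v : ℝ) := Nat.cast_nonneg _
    have : (0 : ℝ) ≤ (s : ℝ) := Nat.cast_nonneg _
    linarith [h1.1]
  · unfold psi
    linarith [h1.2]

theorem ph_psi (v : V n) : (1 - q) * ∫ y, (ph q ρ s y v) ^ 2 ∂(muY q n) ≤
    ∫ y, (psi q ρ s y v) ^ 2 ∂(muY q n) := by
  have hq0 := hp.1
  have hq1 := hp.2.1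
  have i0 := geo_prob hq0 hq1
  have i1 := muY_prob hp (n := n)
  rcases hp.2.2.2.2 with hs | ⟨hs, hρq⟩
  · -- s = 0
    subst hs
    have hr1 := resample (geoM q) v (ph_int hp hS v)
    have hr2 := resample (geoM q) v (psi_int hp hS v)
    have e1 : ∫ y, (ph q ρ 0 y v) ^ 2 ∂(muY q n) =
        ∫ y, ∫ k, (ph q ρ 0 (Function.update y v k) v) ^ 2 ∂(geoM q) ∂(muY q n) := hr1.2
    have e2 : ∫ y, (psi q ρ 0 y v) ^ 2 ∂(muY q n) =
        ∫ y, ∫ k, (psi q ρ 0 (Function.update y v k) v) ^ 2 ∂(geoM q) ∂(muY q n) := hr2.2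
    have i2 : Integrable (fun y => ∫ k, (ph q ρ 0 (Function.update y v k) v) ^ 2 ∂(geoM q))
      (muY q n) := hr1.1.integral_prod_left
    have i3 : Integrable (fun y => ∫ k, (psi q ρ 0 (Function.update y v k) v) ^ 2 ∂(geoM q))
      (muY q n) := hr2.1.integral_prod_left
    rw [e1, e2, ← integral_const_mul]
    apply integral_mono (i2.const_mul _) i3
    intro y
    have hnu : nu q 0 = geoM q := by unfold nu; rw [if_pos rfl]
    have a1 : ∀ k, ph q ρ 0 (Function.update y v k) v = Phi q ρ 0 y v k := by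
      intro k
      rw [ph_eq, Phi_upd hp hS, Function.update_self, add_zero]
    have a2 : ∀ k, psi q ρ 0 (Function.update y v k) v =
        Phi q ρ 0 y v k - ∫ x, Phi q ρ 0 y v x ∂(geoM q) := by
      intro k
      unfold psi
      rw [Phi_upd hp hS, Function.update_self, add_zero, hnu]
      congr 2
      funext x
      rw [Phi_upd hp hS]
    simp only [a1, a2]
    apply one_dim hq0 hq1
    · unfold Phi; simp
    · have := Phi_int hp hS y v
      rwa [hnu] at this
    · refine Integrable.mono' (geo_int hq0 hq1 2) AEStronglyMeasurable.of_discrete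
        (ae_of_all _ fun x => ?_)
      rw [Real.norm_of_nonneg (sq_nonneg _)]
      exact pow_le_pow_left₀ (Phi_nonneg hp hS _ _ _) (Phi_le hp hS _ _ _) 2
  · -- s = 1
    subst hs
    have a2 : ∀ y : V n → ℕ, psi q ρ 1 y v = ph q ρ 1 y v := by
      intro y
      unfold psi nu
      rw [if_neg one_ne_zero, integral_dirac, ph_eq]
      have : Phi q ρ 1 y v 0 = 0 := by unfold Phi; simp
      rw [this, sub_zero]
    simp only [a2]
    have h0 : 0 ≤ ∫ y, (ph q ρ 1 y v) ^ 2 ∂(muY q n) := integral_nonneg fun y => sq_nonneg _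
    nlinarith

end energy

theorem gEnergy (hL : GLaw) (hS : DSl) : GEnergy := by
  intro q ρ s hp n
  refine ⟨fun v => ph_int hp hS v, ?_⟩
  obtain ⟨j1, j2, hmap, hTr, -, -, hgg⟩ := hL q ρ s hp n
  have hmeas : Measurable (fun z : (V n → ℕ) × (V n → Bool × ℕ) => Wt s z.1 z.2) :=
    Measurable.of_discrete
  have hT2 := hTr 2
  have hT1 : Integrable (fun W : V n → ℕ => ((Tc W : ℕ) : ℝ)) (muY q n) := by
    simpa using hTr 1
  have hI2 : Integrable (fun z : (V n → ℕ) × (V n → Bool × ℕ) => ((Tc (Wt s z.1 z.2) : ℕ) : ℝ) ^ 2)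
      ((muY q n).prod (muH q ρ s n)) := by
    have h := hT2
    rw [← hmap] at h
    exact (integrable_map_measure h.aestronglyMeasurable hmeas.aemeasurable).1 h
  have hI1 : Integrable (fun z : (V n → ℕ) × (V n → Bool × ℕ) => ((Tc (Wt s z.1 z.2) : ℕ) : ℝ))
      ((muY q n).prod (muH q ρ s n)) := by
    have h := hT1
    rw [← hmap] at h
    exact (integrable_map_measure h.aestronglyMeasurable hmeas.aemeasurable).1 h
  have hE2 : ∫ y, ∫ h, ((Tc (Wt s y h) : ℕ) : ℝ) ^ 2 ∂(muH q ρ s n) ∂(muY q n) =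
      ∫ W, ((Tc W : ℕ) : ℝ) ^ 2 ∂(muY q n) := by
    rw [← integral_prod _ hI2]
    conv_rhs => rw [← hmap]
    rw [integral_map hmeas.aemeasurable]
    rw [hmap]
    exact hT2.aestronglyMeasurable
  have hE1 : ∫ y, gg q ρ s y ∂(muY q n) = ∫ W, ((Tc W : ℕ) : ℝ) ∂(muY q n) := by
    unfold gg
    rw [← integral_prod _ hI1]
    conv_rhs => rw [← hmap]
    rw [integral_map hmeas.aemeasurable]
    rw [hmap]
    exact hT1.aestronglyMeasurable
  have hq0 := hp.1
  have hq1 := hp.2.1
  have hρ0 := hp.2.2.1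
  have hρ1 := hp.2.2.2.1
  have hgg2 : Integrable (fun y => gg q ρ s y ^ 2) (muY q n) := hgg.integrable_sq
  have hgg1 : Integrable (fun y => gg q ρ s y) (muY q n) := hI1.integral_prod_left
  have hB : ρ * (1 - ρ) * ∑ v, ∫ y, (psi q ρ s y v) ^ 2 ∂(muY q n) ≤
      ∫ y, (∫ h, ((Tc (Wt s y h) : ℕ) : ℝ) ^ 2 ∂(muH q ρ s n) - gg q ρ s y ^ 2) ∂(muY q n) := by
    rw [← integral_finsetSum _ fun v _ => psi_int hp hS v, ← integral_const_mul]
    apply integral_mono_ae
    · exact (integrable_finsetSum _ fun v _ => psi_int hp hS v).const_mul _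
    · exact hI2.integral_prod_left.sub hgg2
    · filter_upwards [hI2.prod_right_ae] with y hy
      exact bessel hp hS y hy
  rw [integral_sub hI2.integral_prod_left hgg2, hE2] at hB
  have hJ : (∫ y, gg q ρ s y ∂(muY q n)) ^ 2 ≤ ∫ y, gg q ρ s y ^ 2 ∂(muY q n) := by
    have h0 : 0 ≤ variance (fun y => gg q ρ s y) (muY q n) := variance_nonneg _ _
    rw [variance_eq_sub hgg] at h0
    simp only [Pi.pow_apply] at h0
    linarith
  rw [hE1] at hJ
  have hmemT : MemLp (fun W : V n → ℕ => ((Tc W : ℕ) : ℝ)) 2 (muY q n) :=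
    (memLp_two_iff_integrable_sq hT1.aestronglyMeasurable).2 hT2
  have hV : variance (fun W : V n → ℕ => ((Tc W : ℕ) : ℝ)) (muY q n) =
      ∫ W, ((Tc W : ℕ) : ℝ) ^ 2 ∂(muY q n) - (∫ W, ((Tc W : ℕ) : ℝ) ∂(muY q n)) ^ 2 := by
    rw [variance_eq_sub hmemT]
    rfl
  have hD : (1 - q) * ∑ v, ∫ y, (ph q ρ s y v) ^ 2 ∂(muY q n) ≤
      ∑ v, ∫ y, (psi q ρ s y v) ^ 2 ∂(muY q n) := by
    rw [Finset.mul_sum]
    exact Finset.sum_le_sum fun v _ => ph_psi hp hS v
  have hc : 0 < ρ * (1 - ρ) := mul_pos hρ0 (by linarith)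
  have hc2 : 0 < (1 - q) * ρ * (1 - ρ) := by
    have : 0 < 1 - q := by linarith
    rw [mul_assoc]
    exact mul_pos this hc
  rw [one_div, inv_mul_eq_div, le_div_iff₀ hc2]
  have hD2 := mul_le_mul_of_nonneg_left hD hc.le
  calc (∑ v, ∫ y, (ph q ρ s y v) ^ 2 ∂(muY q n)) * ((1 - q) * ρ * (1 - ρ))
      = ρ * (1 - ρ) * ((1 - q) * ∑ v, ∫ y, (ph q ρ s y v) ^ 2 ∂(muY q n)) := by ring
    _ ≤ ρ * (1 - ρ) * ∑ v, ∫ y, (psi q ρ s y v) ^ 2 ∂(muY q n) := hD2
    _ ≤ _ := by rw [hV]; linarith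

end Pool.Agent.W140.LP
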